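import Pool.Agent.Y698.SG.Fj
import Pool.Agent.Y698.SG.Ug
import Pool.Agent.Y698.SG.Uj
import Pool.Agent.Y698.SG.Dwc
import Pool.Agent.Y698.SG.Ebb
import Pool.Agent.Q283.GM.BQ
import Pool.Agent.Q283.KR.Uniq

/-!
# The 2-part of the conjecture of Birch and Swinnerton-Dyer in cyclic fields of degree `2 ^ n`:
# the exact density of the fields

`E_D` is the quadratic twist by `D` of `X_0(49) : y² + x y = x³ - x² - 2 x - 1`, where `D` is any
squarefree positive integer whose prime factors are `1` modulo `4`. Let `n ≥ 1`. The fields are the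
cyclic fields `K_r` of degree `2 ^ n` inside `ℚ(ζ_r)`, one for each prime number `r`, where `r` runs
through the prime numbers `1` modulo `4` and modulo `2 ^ n` which are inert in `ℚ(√-7)`.

Theorem. (1) If `r` does not divide `D`, then `E_D(K_r)` is finite and `Ш(E_D/K_r)[2] = 0` if and only if
`E_D(ℚ)` is finite, `Ш(E_D/ℚ)[2] = 0`, every prime factor of `D` which splits in `ℚ(√-7)` is a
`2 ^ n`-th power modulo `r`, and every other prime factor of `D` is a `2 ^ (n - 1)`-th power modulo `r`.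
In this case the 2-part of the conjecture holds for `E_D` over `K_r`: the function `L(E_D/K_r, s)` is
entire and not zero at `1`, the 2-primary part of `Ш(E_D/K_r)` is zero, and
`√|Disc K| #E(K)_tors² L(E_D/K, 1) / (Ω ∏ c_v)` is a unit at all the primes above two.
(2) Let `𝒟` be any finite set of such `D` with `E_D(ℚ)` finite and `Ш(E_D/ℚ)[2] = 0`. The `r` for which
the 2-part of the conjecture holds in this way over `K_r` for ALL the curves `E_D`, `D ∈ 𝒟`, have a
density, and it is exactly `(1/2) ^ (n p + (n - 1) q)`, where `p` is the number of the prime numbers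
which divide a member of `𝒟` and split in `ℚ(√-7)`, and `q` the number of the others which divide a
member of `𝒟`. In particular for every `n` there are infinitely many such fields of degree `2 ^ n`, of
different prime conductors.

The criterion in terms of a matrix over `𝔽₂` and the formula modulo the primes above two for one field
are starting results (`FormulaModTwoAllTwists`, `Pool/Agent/Y698`); Chebotarev's density theorem is the
one of `Pool/Agent/W401/Cheb`. New here (helper283, `Pool/Agent/Q283/KR`): the descent of the criterion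
to `ℚ` and the law for varying fields, which needs the independence of the radical extensions
`ℚ(ζ_{2^ν}, √-7, p^(1/2^n), q^(1/2^(n-1)))`.
-/

set_option autoImplicit false

open NumberField NumberField.InfinitePlace IsDedekindDomain WeierstrassCurve MeasureTheory

namespace Pool.Agent.Results.MP_e996df_nt.ExactDensityOfFields

open Pool.Agent.TH841.NF.D (Sha)
open Pool.Agent.TH841.SH.D (Pt)

/-- For `D ≡ 1 mod 4` the quadratic twist by `D` of the elliptic curve
`X_0(49) : y² + x y = x³ - x² - 2 x - 1`: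
the curve `y² + x y = x³ - (3 D + 1) / 4 x² - 2 D² x - D³`. -/
def twist (D : ℕ) : WeierstrassCurve ℤ := ⟨1, -((3 * D + 1) / 4), 0, -2 * D ^ 2, -D ^ 3⟩

/-- The curve given by the equation of `W` over the ring `R`. -/
abbrev base (W : WeierstrassCurve ℤ) (R : Type) [CommRing R] : WeierstrassCurve R :=
  W.map (Int.castRingHom R)

section

variable {K : Type} [Field K] [NumberField K]

/-- The equation is minimal at the finite place `v` of `K`: no change of variables over `K` that
keeps the coefficients integral at `v` decreases the order of the discriminant. -/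
def MinimalAt (W : WeierstrassCurve K) (v : HeightOneSpectrum (𝓞 K)) : Prop :=
  ∀ C : VariableChange K, v.valuation K (C • W).a₁ ≤ 1 → v.valuation K (C • W).a₂ ≤ 1 →
    v.valuation K (C • W).a₃ ≤ 1 → v.valuation K (C • W).a₄ ≤ 1 → v.valuation K (C • W).a₆ ≤ 1 →
    v.valuation K (C • W).Δ ≤ v.valuation K W.Δ

/-- `W⁰(K_v)`, the group of the points of `W` over the completion `K_v` with nonsingular reduction:
the point at infinity and the points `(x, y)` where `x` is not integral, or one of the two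
derivatives of `y² + a₁ x y + a₃ y - x³ - a₂ x² - a₄ x - a₆` is a unit at `(x, y)`.
Here `Pt W K_v` is the group of the points of `W` over `K_v`. -/
noncomputable def nonsing (W : WeierstrassCurve K) (v : HeightOneSpectrum (𝓞 K)) :
    AddSubgroup (Pt W (v.adicCompletion K)) :=
  AddSubgroup.closure {P | ∀ x y h, P = Affine.Point.some x y h →
    1 < Valued.v x ∨
    Valued.v ((W.baseChange (v.adicCompletion K)).a₁ * y -
      (3 * x ^ 2 + 2 * (W.baseChange (v.adicCompletion K)).a₂ * x +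
        (W.baseChange (v.adicCompletion K)).a₄)) = 1 ∨
    Valued.v (2 * y + (W.baseChange (v.adicCompletion K)).a₁ * x +
      (W.baseChange (v.adicCompletion K)).a₃) = 1}

/-- The Tamagawa number `c_v = [W(K_v) : W⁰(K_v)]` of a minimal equation. -/
noncomputable def c (W : WeierstrassCurve K) (v : HeightOneSpectrum (𝓞 K)) : ℕ :=
  (nonsing W v).index

/-- The product of the Tamagawa numbers. -/
noncomputable def Tam (W : WeierstrassCurve K) : ℕ := ∏ᶠ v : HeightOneSpectrum (𝓞 K), c W v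

/-- The 2-primary part of the Tate-Shafarevich group over `K`. -/
def Sha2 (W : WeierstrassCurve K) : Set (Sha W) := {x | ∃ n : ℕ, 2 ^ n • x = 0}

end

/-- `4 x³ + b₂ x² + 2 b₄ x + b₆ = (2 y + a₁ x + a₃)²`. -/
def cubic (W : WeierstrassCurve ℤ) {R : Type} [CommRing R] (x : R) : R :=
  4 * x ^ 3 + W.b₂ * x ^ 2 + 2 * W.b₄ * x + W.b₆

/-- `∫_{W(ℝ)} |ω|` with `ω = dx / (2 y + a₁ x + a₃)`, as an integral over `x`: two real points lie
over each `x` with `cubic x > 0`. -/
noncomputable def realPeriod (W : WeierstrassCurve ℤ) : ℝ :=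
  2 * ∫ x in {x : ℝ | 0 < cubic W x}, 1 / √(cubic W x)

/-- `2 ∫_{W(ℂ)} |ω ∧ ω̄|`, where `|ω ∧ ω̄| = du dv` in a local parameter `z = u + i v` with
`dz = ω`, as an integral over `x`: two points lie over a general `x`, and `|ω ∧ ω̄|` is the area
element of the plane of `x` divided by `|cubic x|`. -/
noncomputable def complexPeriod (W : WeierstrassCurve ℤ) : ℝ := 2 * (2 * ∫ x : ℂ, 1 / ‖cubic W x‖)

/-- `Ω_{W/K}`. -/
noncomputable def Omega (K : Type) [Field K] [NumberField K] (W : WeierstrassCurve ℤ) : ℝ :=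
  realPeriod W ^ nrRealPlaces K * complexPeriod W ^ nrComplexPlaces K

open Classical in
/-- The order of the torsion subgroup of `W(K)`. -/
noncomputable def torsOrder (K : Type) [Field K] [NumberField K] (W : WeierstrassCurve ℤ) : ℕ :=
  Nat.card (AddCommGroup.torsion (base W K).toAffine.Point)

/-- The order of the Tate-Shafarevich group predicted by the formula, for a curve with an equation that
is minimal at all finite places and the value `l` of its L-function at `s = 1`:
`√|Disc K| #W(K)_tors² l / (Ω_{W/K} ∏ c_v)`. -/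
noncomputable def anOrder (K : Type) [Field K] [NumberField K] (W : WeierstrassCurve ℤ) (l : ℂ) : ℂ :=
  l * (√|(discr K : ℝ)| : ℝ) * (torsOrder K W : ℂ) ^ 2 / ((Omega K W : ℝ) * (Tam (base W K) : ℂ))

open Classical in
/-- `1` if `m` is not a square modulo `p`, and `0` if it is -/
noncomputable def nonsq (p m : ℕ) : ZMod 2 := if IsSquare (m : ZMod p) then 0 else 1

open Classical in
/-- `1` if `-7` is not a fourth power modulo `p`, and `0` if it is -/
noncomputable def nonfourth (p : ℕ) : ZMod 2 := if ∃ y : ZMod p, y ^ 4 = -7 then 0 else 1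

/-- The matrix over the field with two elements, with rows and columns indexed by `P`: the entry at
`(i, j)` is `nonsq i j` for `i ≠ j`, and the entry at `(i, i)` is the sum of `nonfourth i` and of the
`nonsq i l` for all the `l ≠ i` in `Q` and `P`. -/
noncomputable def mat (Q P : Finset ℕ) : Matrix P P (ZMod 2) := Matrix.of fun i j =>
  if i = j then nonfourth i + ∑ q ∈ Q, nonsq i q + ∑ p ∈ P.erase i, nonsq i p else nonsq i j

/-- `E_D(K)` is finite and `Ш(E_D/K)` has no element of order two. -/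
def Good (K : Type) [Field K] [NumberField K] (D : ℕ) : Prop :=
  Finite (base (twist D) K).toAffine.Point ∧ ∀ x : Sha (base (twist D) K), x + x = 0 → x = 0

/-- The equation of `E_D` is minimal at all finite places of `K`, the order of the torsion subgroup of
`E_D(K)` is twice an odd number, the 2-primary part of `Ш(E_D/K)` is zero, the product of the Tamagawa
numbers is `2 ^ t`, `L(E_D/K, s)` is entire and not zero at `s = 1`, and the analytic order
`√|Disc K| #E_D(K)_tors² L(E_D/K, 1) / (Ω ∏ c_v)` and its inverse are algebraic numbers which become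
integral after multiplication by odd integers. -/
def TwoPartFormula (K : Type) [Field K] [NumberField K] (D t : ℕ) : Prop :=
  (∀ v : HeightOneSpectrum (𝓞 K), MinimalAt (base (twist D) K) v) ∧
  (∃ t : ℕ, Odd t ∧ torsOrder K (twist D) = 2 * t) ∧
  Sha2 (base (twist D) K) = {0} ∧
  Tam (base (twist D) K) = 2 ^ t ∧
  ∃ Λ : ℂ → ℂ, Differentiable ℂ Λ ∧
    (∀ s : ℂ, 2 < s.re → Λ s = (base (twist D) K).LSeries s) ∧ Λ 1 ≠ 0 ∧
    (∃ m : ℤ, Odd m ∧ _root_.IsIntegral ℤ ((m : ℂ) * anOrder K (twist D) (Λ 1))) ∧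
    ∃ m : ℤ, Odd m ∧ _root_.IsIntegral ℤ ((m : ℂ) * (anOrder K (twist D) (Λ 1))⁻¹)

/-- The class of the `D`: squarefree, all prime factors `1` modulo `4`. -/
def Class (D : ℕ) : Prop := Squarefree D ∧ ∀ p : ℕ, p.Prime → p ∣ D → p % 4 = 1

/-- `E_D(ℚ)` is finite and `Ш(E_D/ℚ)` has no element of order two. -/
def GoodQ (D : ℕ) : Prop := Finite (base (twist D) ℚ).toAffine.Point ∧
  ∀ x : Pool.Agent.TH841.SH.D.Sha (base (twist D) ℚ), x + x = 0 → x = 0

open Classical in
/-- The prime factors of `D` which split in `ℚ(√-7)`. -/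
noncomputable def splitPart (D : ℕ) : Finset ℕ := D.primeFactors.filter fun p => IsSquare (-7 : ZMod p)

open Classical in
/-- The prime factors of `D` which do not split in `ℚ(√-7)`. -/
noncomputable def inertPart (D : ℕ) : Finset ℕ := D.primeFactors.filter fun p => ¬ IsSquare (-7 : ZMod p)

/-- The conductors: the prime numbers `1` modulo `4` and modulo `2 ^ n` which are inert in
`ℚ(√-7)`. -/
def Conductor (n r : ℕ) : Prop :=
  r.Prime ∧ r % 4 = 1 ∧ r % 2 ^ n = 1 ∧ ¬ IsSquare (-7 : ZMod r)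

/-- The exponent of two in the product of the Tamagawa numbers of `E_D` over a field of degree
`2 ^ n`. -/
noncomputable def tamExp (n D : ℕ) : ℕ := 1 + ((inertPart D).card + 2 * (splitPart D).card) * 2 ^ n

/-- The conditions at the prime factors of `D`. -/
def Powers (n D r : ℕ) : Prop :=
  (∀ p ∈ splitPart D, ∃ y : ZMod r, y ^ 2 ^ n = (p : ZMod r)) ∧
    ∀ q ∈ inertPart D, ∃ y : ZMod r, y ^ 2 ^ (n - 1) = (q : ZMod r)

/-- The criterion for the subfields `K` of degree `2 ^ n` of `ℚ(ζ_r)`, if `r` does not divide `D`. -/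
def Criterion (n : ℕ) : Prop :=
  ∀ r : ℕ, Conductor n r → ∀ D : ℕ, Class D → ¬ r ∣ D →
    ∀ K : IntermediateField ℚ (CyclotomicField r ℚ), Module.finrank ℚ K = 2 ^ n →
      (Good K D ↔ GoodQ D ∧ Powers n D r) ∧ (Good K D → TwoPartFormula K D (tamExp n D))

/-- The 2-part of the conjecture holds for all the `E_D`, `D ∈ 𝒟`, over the subfield `K` of degree
`2 ^ n` of `ℚ(ζ_r)`, where `r` does not divide the `D`: `E_D(K)` is finite and `Ш(E_D/K)` has no element
of order two, and the 2-part of the formula holds. -/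
def Holds (n : ℕ) (𝒟 : Finset ℕ) (r : ℕ) : Prop :=
  (∀ D ∈ 𝒟, ¬ r ∣ D) ∧ ∀ K : IntermediateField ℚ (CyclotomicField r ℚ),
    Module.finrank ℚ K = 2 ^ n → ∀ D ∈ 𝒟, Good K D ∧ TwoPartFormula K D (tamExp n D)

open Classical in
/-- The number of the conductors `r ≤ X` with the property `T`. -/
noncomputable def count (n : ℕ) (T : ℕ → Prop) (X : ℕ) : ℕ :=
  ((Finset.range (X + 1)).filter fun r => Conductor n r ∧ T r).card

/-- The exact density of the fields. -/
def Density (n : ℕ) : Prop :=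
  ∀ 𝒟 : Finset ℕ, (∀ D ∈ 𝒟, Class D ∧ GoodQ D) →
    Filter.Tendsto (fun X : ℕ => (count n (Holds n 𝒟) X : ℝ) / (count n (fun _ => True) X : ℝ))
      Filter.atTop
      (nhds ((1 / 2) ^ (n * (𝒟.biUnion splitPart).card + (n - 1) * (𝒟.biUnion inertPart).card)))

section proof

open Pool.Agent.Y698

lemma base_eq {D j : ℕ} (hj : D = 1 + 4 * j) (K : Type) [Field K] : base (twist D) K = AX K j :=
  twZ_map hj K

lemma cubic_eq {D j : ℕ} (hj : D = 1 + 4 * j) {R : Type} [CommRing R] (x : R) :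
    cubic (twist D) x = psD (1 + 4 * j) x := by
  have h1 : (3 * (D : ℤ) + 1) / 4 = 1 + 3 * j := by
    rw [hj]
    push_cast
    omega
  unfold cubic twist WeierstrassCurve.b₂ WeierstrassCurve.b₄ WeierstrassCurve.b₆ psD
  simp only
  rw [h1, hj]
  push_cast
  ring

lemma real_eq {D j : ℕ} (hj : D = 1 + 4 * j) : realPeriod (twist D) =
    ∫ x in {x : ℝ | 0 < psD (1 + 4 * j) x}, 2 / Real.sqrt (psD (1 + 4 * j) x) := by
  unfold realPeriod
  simp only [cubic_eq hj]
  rw [← integral_const_mul]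
  congr 1
  funext x
  ring

lemma cplx_eq {D j : ℕ} (hj : D = 1 + 4 * j) : complexPeriod (twist D) =
    ∫ x : ℂ, 4 / ‖psD (1 + 4 * j) x‖ := by
  unfold complexPeriod
  simp only [cubic_eq hj]
  rw [← mul_assoc, ← integral_const_mul]
  congr 1
  funext x
  ring

section criterion

variable {r n : ℕ} {Q P : Finset ℕ} {D : ℕ}

open Pool.Agent.Y698 Pool.Agent.Y698.SG in
/-- the criterion -/
theorem crit (hr : r.Prime) (h4 : r % 4 = 1) (h7 : ¬ IsSquare (-7 : ZMod r))
    (hn : 1 ≤ n) (K : IntermediateField ℚ (CyclotomicField r ℚ))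
    (hK : Module.finrank ℚ K = 2 ^ n)
    (hQ : ∀ q ∈ Q, q.Prime ∧ q % 4 = 1 ∧ ¬ IsSquare (-7 : ZMod q) ∧ q ≠ r)
    (hP : ∀ p ∈ P, p.Prime ∧ p % 4 = 1 ∧ IsSquare (-7 : ZMod p))
    (hD : D = (∏ q ∈ Q, q) * ∏ p ∈ P, p) :
    (Good K D ↔ (∀ q ∈ Q, ∃ y : ZMod r, y ^ 2 ^ n = (q : ZMod r) ^ 2) ∧
      (∀ p ∈ P, ∃ y : ZMod r, y ^ 2 ^ n = (p : ZMod r)) ∧ (mat Q P).det ≠ 0) ∧
    ((∀ q ∈ Q, ∃ y : ZMod r, y ^ 2 ^ n = (q : ZMod r) ^ 2) ∧
      (∀ p ∈ P, ∃ y : ZMod r, y ^ 2 ^ n = (p : ZMod r)) ∧ (mat Q P).det ≠ 0 →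
      TwoPartFormula K D (1 + (Q.card + 2 * P.card) * 2 ^ n)) := by
  have : Fact r.Prime := ⟨hr⟩
  have hM : IsCyclotomicExtension {r} ℚ (CyclotomicField r ℚ) := Pool.Agent.Y698.cyc_inst r
  have hN : Normal ℚ K := (Pool.Agent.Y698.isGalK r K (M := CyclotomicField r ℚ)).to_normal
  have hir : Pool.Agent.Y698.Inq r := ⟨hr, h4, h7⟩
  have hQ' : ∀ q ∈ Q, Pool.Agent.Y698.Inq q ∧ q ≠ r := fun q hq =>
    ⟨⟨(hQ q hq).1, (hQ q hq).2.1, (hQ q hq).2.2.1⟩, (hQ q hq).2.2.2⟩
  have hP' : ∀ p ∈ P, Pool.Agent.Y698.SG.Spl p := fun p hp => ⟨(hP p hp).1, (hP p hp).2.1, (hP p hp).2.2⟩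
  have hPr : ∀ p ∈ P, p ≠ r := by
    rintro p hp rfl
    exact h7 (hP p hp).2.2
  have hgp : ∀ q ∈ Q ∪ P, Pool.Agent.Y698.SG.Gp q ∧ q ≠ r := by
    intro q hq
    rcases Finset.mem_union.1 hq with h | h
    · exact ⟨Pool.Agent.Y698.SG.Gp.of_inq (hQ' q h).1, (hQ' q h).2⟩
    · exact ⟨Pool.Agent.Y698.SG.Gp.of_spl (hP' q h), hPr q h⟩
  have hdisj : Disjoint Q P := Pool.Agent.Y698.SG.disj_QP (fun q hq => (hQ' q hq).1) hP'
  have hDu : D = ∏ q ∈ Q ∪ P, q := by rw [hD, Finset.prod_union hdisj]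
  have hm4 := Pool.Agent.Y698.prod_mod_four (S := Q ∪ P) fun q hq => (hgp q hq).1.m4
  obtain ⟨j, hj⟩ : ∃ j, ∏ q ∈ Q ∪ P, q = 1 + 4 * j := ⟨(∏ q ∈ Q ∪ P, q) / 4, by omega⟩
  have hDj : D = 1 + 4 * j := by rw [hDu, hj]
  have han : ∀ l : ℂ, anOrder K (twist D) l = Pool.Agent.Y698.SG.quoT K j l := by
    intro l
    unfold anOrder torsOrder Omega
    rw [base_eq hDj, real_eq hDj, cplx_eq hDj]
    unfold Pool.Agent.Y698.SG.quoT Pool.Agent.Y698.SG.tnum
    have hT : Tam (Pool.Agent.Y698.AX K j) = ∏ᶠ v, Pool.Agent.Y698.tam (Pool.Agent.Y698.AX K j) v := rfl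
    rw [hT]
    generalize (∏ᶠ v, Pool.Agent.Y698.tam (Pool.Agent.Y698.AX K j) v : ℕ) = t
    push_cast
    rfl
  have hst : torsOrder K (twist D) = Pool.Agent.Y698.SG.tnum (Pool.Agent.Y698.AX K j) := by
    unfold torsOrder Pool.Agent.Y698.SG.tnum
    rw [base_eq hDj]
  have heq := Pool.Agent.Y698.SG.equiv_all (CyclotomicField r ℚ) K hK hn hir hQ' hP' hj
  obtain ⟨Λ, h1, h2, h3⟩ := Pool.Agent.Y698.SG.level_all (CyclotomicField r ℚ) K hK hn hir hQ' hP' hj
  unfold Good TwoPartFormula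
  simp only [han, hst]
  rw [base_eq hDj]
  refine ⟨heq.symm, fun hC => ?_⟩
  obtain ⟨k, rfl⟩ : ∃ k, n = k + 1 := ⟨n - 1, by omega⟩
  have hdt : Pool.Agent.Y698.SG.Dt r (k + 1) Q P :=
    ⟨hn, hir, fun q hq => ⟨(hQ' q hq).1, (hQ' q hq).2, hC.1 q hq⟩,
      fun p hp => ⟨hP' p hp, hC.2.1 p hp⟩, hC.2.2⟩
  refine ⟨fun v => Pool.Agent.Y698.SG.minimal_E (CyclotomicField r ℚ) K h7 hgp hj v,
    Pool.Agent.Y698.SG.tnum_AX (CyclotomicField r ℚ) K h7 j, ?_,
    Pool.Agent.Y698.SG.tam_prodE (CyclotomicField r ℚ) K hK hdt hj, Λ, h1, h2, ?_,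
    Pool.Agent.Y698.int_of_val fun Γ _ v hv => (h3 Γ v hv).1, ?_⟩
  · apply Set.eq_singleton_iff_unique_mem.2
    refine ⟨⟨0, smul_zero _⟩, ?_⟩
    rintro x ⟨l, hl⟩
    exact Pool.Agent.Y698.SG.sha_two_powE (CyclotomicField r ℚ) K hK hdt hj x l hl
  · intro h0
    refine Pool.Agent.Y698.SG.exists_val2 fun Γ _ v hv => ?_
    have h5 := ((h3 Γ v hv).2).2 hC
    rw [h0] at h5
    unfold Pool.Agent.Y698.SG.quoT at h5
    rw [zero_mul, zero_mul, zero_div, map_zero] at h5
    exact zero_ne_one h5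
  · exact Pool.Agent.Y698.int_of_val fun Γ _ v hv => by
      rw [map_inv₀, ((h3 Γ v hv).2).2 hC, inv_one]

end criterion

end proof


section law

open Q283.GW Q283.GB
open scoped Classical

lemma A_sq {p : ℕ} (h1 : p.Prime) (h2 : p % 4 = 1) : ρ49.Φ.A p ↔ IsSquare (-7 : ZMod p) := by
  constructor
  · intro h
    exact (spl_A h).sq
  · intro h
    by_contra h3
    exact (inq_B h1 h2 h3).ns h

lemma class_iff (D : ℕ) : Class D ↔ C4 D := by
  unfold Class C4 CF
  constructor
  · rintro ⟨h1, h2⟩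
    exact ⟨h1, fun p hp => ⟨Nat.prime_of_mem_primeFactors hp,
      h2 p (Nat.prime_of_mem_primeFactors hp) (Nat.dvd_of_mem_primeFactors hp)⟩⟩
  · rintro ⟨h1, h2⟩
    exact ⟨h1, fun p hp hd => (h2 p (Nat.mem_primeFactors.2 ⟨hp, hd, h1.ne_zero⟩)).2⟩

lemma split_eq {D : ℕ} (h : CF D.primeFactors) : splitPart D = PA D.primeFactors := by
  unfold splitPart PA
  refine Finset.filter_congr fun p hp => ?_
  rw [A_sq (h p hp).1 (h p hp).2]

lemma inert_eq {D : ℕ} (h : CF D.primeFactors) : inertPart D = QA D.primeFactors := by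
  unfold inertPart QA
  refine Finset.filter_congr fun p hp => ?_
  rw [A_sq (h p hp).1 (h p hp).2]

lemma prod_parts {D : ℕ} (hD : Squarefree D) :
    D = (∏ q ∈ inertPart D, q) * ∏ p ∈ splitPart D, p := by
  conv_lhs => rw [← Nat.prod_primeFactors_of_squarefree hD]
  unfold inertPart splitPart
  rw [mul_comm]
  exact (Finset.prod_filter_mul_prod_filter_not _ _ _).symm

/-- the criterion over `ℚ` -/
lemma goodQ_iff {D : ℕ} (hD : C4 D) : GoodQ D ↔ (mat (inertPart D) (splitPart D)).det ≠ 0 := by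
  obtain ⟨j, hj⟩ := hD.2.prod
  have hDj : D = 1 + 4 * j := by
    rw [← hj, union_A, Nat.prod_primeFactors_of_squarefree hD.1]
  unfold GoodQ
  rw [base_eq hDj, crit_AX (QA_inq hD.2) (PA_spl _) hj, split_eq hD.2, inert_eq hD.2]
  exact Iff.rfl

lemma cardg {s : Finset ℕ} {P Q : ℕ → Prop} {i1 : DecidablePred P} {i2 : DecidablePred Q}
    (h : ∀ p, P p ↔ Q p) : (s.filter P).card = (s.filter Q).card := by
  congr 1
  ext p
  rw [Finset.mem_filter, Finset.mem_filter, h]

lemma dvd_of {n r : ℕ} (h : r % 2 ^ n = 1) : 2 ^ n ∣ r - 1 := by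
  have h1 := Nat.div_add_mod r (2 ^ n)
  rw [h] at h1
  exact ⟨r / 2 ^ n, by omega⟩

/-- the criterion over the fields -/
lemma criterion {n : ℕ} (hn : 1 ≤ n) : Criterion n := by
  intro r hr D hD hrD K hK
  obtain ⟨h1, h2, h3, h4⟩ := hr
  have hC := (class_iff D).1 hD
  obtain ⟨c1, c2⟩ := crit h1 h2 h4 hn K hK (Q := inertPart D) (P := splitPart D) (D := D)
    (fun q hq => by
      obtain ⟨g1, g2⟩ := Finset.mem_filter.1 hq
      refine ⟨(hC.2 q g1).1, (hC.2 q g1).2, g2, ?_⟩
      rintro rfl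
      exact hrD (Nat.dvd_of_mem_primeFactors g1))
    (fun p hp => by
      obtain ⟨g1, g2⟩ := Finset.mem_filter.1 hp
      exact ⟨(hC.2 p g1).1, (hC.2 p g1).2, g2⟩) (prod_parts hC.1)
  have h5 : (∀ q ∈ inertPart D, ∃ y : ZMod r, y ^ 2 ^ n = (q : ZMod r) ^ 2) ↔
      ∀ q ∈ inertPart D, ∃ y : ZMod r, y ^ 2 ^ (n - 1) = (q : ZMod r) :=
    forall₂_congr fun q _ => Q283.KR.pow_sq_iff h1 hn (dvd_of h3) _
  rw [h5, ← goodQ_iff hC] at c1 c2
  unfold Powers
  refine ⟨?_, fun h => c2 (c1.1 h)⟩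
  rw [c1]
  tauto

end law

/-- **The exact density of the cyclic fields of degree `2 ^ n` over which the 2-part of the conjecture
holds.** -/
theorem result (n : ℕ) (hn : 1 ≤ n) :
    (∀ r : ℕ, Conductor n r →
      ∃! K : IntermediateField ℚ (CyclotomicField r ℚ), Module.finrank ℚ K = 2 ^ n) ∧
    Criterion n ∧ Density n := by
  classical
  have hc := criterion hn
  refine ⟨fun r hr => ?_, hc, fun 𝒟 h𝒟 => ?_⟩
  · obtain ⟨K, hK⟩ := Q283.KR.exists_K hr.1 (dvd_of hr.2.2.1)
    exact ⟨K, hK, fun K' hK' => Q283.KR.unique_K hr.1 K' K hK' hK⟩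
  · have hmem : ∀ D ∈ 𝒟, ∀ s ∈ D.primeFactors, s.Prime ∧ s ≠ 2 ∧ s ≠ 7 := by
      intro D hD s hs
      have h1 := ((class_iff D).1 (h𝒟 D hD).1).2 s hs
      refine ⟨h1.1, ?_, ?_⟩
      · rintro rfl
        exact absurd h1.2 (by norm_num)
      · rintro rfl
        exact absurd h1.2 (by norm_num)
    have hd : Disjoint (𝒟.biUnion splitPart) (𝒟.biUnion inertPart) := by
      rw [Finset.disjoint_left]
      intro a ha hb
      obtain ⟨D, hD, h1⟩ := Finset.mem_biUnion.1 ha
      obtain ⟨D', hD', h2⟩ := Finset.mem_biUnion.1 hb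
      exact (Finset.mem_filter.1 h2).2 (Finset.mem_filter.1 h1).2
    have hmemU : ∀ r : ℕ, r ∉ 𝒟.biUnion splitPart ∪ 𝒟.biUnion inertPart → r.Prime →
        ∀ D ∈ 𝒟, ¬ r ∣ D := by
      intro r hr hrp D hD hrD
      apply hr
      have h0 : r ∈ D.primeFactors :=
        Nat.mem_primeFactors.2 ⟨hrp, hrD, (h𝒟 D hD).1.1.ne_zero⟩
      by_cases h7 : IsSquare (-7 : ZMod r)
      · exact Finset.mem_union_left _ (Finset.mem_biUnion.2 ⟨D, hD, Finset.mem_filter.2 ⟨h0, h7⟩⟩)
      · exact Finset.mem_union_right _ (Finset.mem_biUnion.2 ⟨D, hD, Finset.mem_filter.2 ⟨h0, h7⟩⟩)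
    have key := Q283.KR.density2 hd hn (fun s hs => by
        obtain ⟨D, hD, h1⟩ := Finset.mem_biUnion.1 hs
        exact hmem D hD s (Finset.mem_filter.1 h1).1) (fun s hs => by
        obtain ⟨D, hD, h1⟩ := Finset.mem_biUnion.1 hs
        exact hmem D hD s (Finset.mem_filter.1 h1).1) (Holds n 𝒟) (by
        intro r h1 h2 h3 h4 hr
        have hr' := hmemU r hr h1
        have hcr : Conductor n r := ⟨h1, h2, h3, h4⟩
        have hP : (∀ D ∈ 𝒟, Powers n D r) ↔
            (∀ p ∈ 𝒟.biUnion splitPart, ∃ y : ZMod r, y ^ 2 ^ n = (p : ZMod r)) ∧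
            ∀ q ∈ 𝒟.biUnion inertPart, ∃ y : ZMod r, y ^ 2 ^ (n - 1) = (q : ZMod r) := by
          constructor
          · intro h
            refine ⟨fun p hp => ?_, fun q hq => ?_⟩
            · obtain ⟨D, hD, h5⟩ := Finset.mem_biUnion.1 hp
              exact (h D hD).1 p h5
            · obtain ⟨D, hD, h5⟩ := Finset.mem_biUnion.1 hq
              exact (h D hD).2 q h5
          · rintro ⟨h5, h6⟩ D hD
            exact ⟨fun p hp => h5 p (Finset.mem_biUnion.2 ⟨D, hD, hp⟩),
              fun q hq => h6 q (Finset.mem_biUnion.2 ⟨D, hD, hq⟩)⟩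
        rw [← hP]
        constructor
        · rintro ⟨-, h5⟩ D hD
          obtain ⟨K, hK⟩ := Q283.KR.exists_K h1 (dvd_of h3)
          exact ((hc r hcr D (h𝒟 D hD).1 (hr' D hD) K hK).1.1 (h5 K hK D hD).1).2
        · intro h5
          refine ⟨hr', fun K hK D hD => ?_⟩
          obtain ⟨h6, h7⟩ := hc r hcr D (h𝒟 D hD).1 (hr' D hD) K hK
          have h8 := h6.2 ⟨(h𝒟 D hD).2, h5 D hD⟩
          exact ⟨h8, h7 h8⟩)
    refine key.congr fun X => ?_
    unfold count
    congr 1
    · congr 1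
      refine cardg fun r => ?_
      refine and_congr_right fun h => ?_
      constructor
      · exact fun h2 => h2.2
      · intro h2
        refine ⟨fun h3 => ?_, h2⟩
        rcases Finset.mem_union.1 h3 with h4 | h4
        · obtain ⟨D, hD, h5⟩ := Finset.mem_biUnion.1 h4
          exact h2.1 D hD (Nat.dvd_of_mem_primeFactors (Finset.mem_filter.1 h5).1)
        · obtain ⟨D, hD, h5⟩ := Finset.mem_biUnion.1 h4
          exact h2.1 D hD (Nat.dvd_of_mem_primeFactors (Finset.mem_filter.1 h5).1)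
    · congr 1
      refine cardg fun r => ?_
      rw [and_true]
      exact Iff.rfl

end Pool.Agent.Results.MP_e996df_nt.ExactDensityOfFields
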