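import Mathlib
import Pool.Agent.Q283.T3.Sq

/-!
# The 3-part of the conjecture of Birch and Swinnerton-Dyer over `ℚ(√-3)` for several cubic twists of
# the same curve at once: the events are independent

`K` is the field of third roots of unity, `E_D : y² + D y = x³` for `D ≠ 0` in `𝓞 K`, the cubic twists
over `K` of `E : y² + y = x³`. Let `m_1, …, m_M` be any different squarefree elements of `𝓞 K`, `1`
modulo `3`, with norms `1` modulo `9`, let `B ≠ 0` be a common multiple of them, and let `D` run through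
ALL squarefree elements, `1` modulo `3`, with norm different from `1` modulo `9`, prime to `B`, ordered
by the norm; there are at least `c X` of norm at most `X`.

* For every such `D` and every `k` the function `L(E_{D m_k} / K, s)` is entire, and the quotient `ρ_k`
  of its value at `1` by the right-hand side of the conjecture (for rank `0`) without the order of `Ш`
  is integral at every valuation of `ℂ` above `3`; `ρ_k` is a unit there if and only if `E_{D m_k}(K)`
  is finite and `Ш(E_{D m_k} / K)[3^∞] = 0`, and then `L(E_{D m_k} / K, 1) ≠ 0`. So if `ρ_k` is a unit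
  the `3`-part of the conjecture holds for `E_{D m_k}` over `K`: rank and order are `0`,
  `Ш[3^∞]` is trivial and the quotient is a unit; and if `ρ_k` is not a unit both sides are
  divisible by the primes above `3` (the group of points is infinite or `Ш[3] ≠ 0`).
* For every set `A` of indices the proportion of the `D` for which `ρ_k` is a unit above `3` exactly
  for the `k` in `A` tends to `c ^ |A| (1 - c) ^ (M - |A|)`, where
  `c = ∏_{i ≥ 0} (1 - 3^{-(2 i + 1)}) = 0.6390...`: the divisibility by `3` of the central values of the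
  `M` twists `E_{D m_1}, …, E_{D m_M}` of the same curve are asymptotically independent events.
  In particular the `3`-part of the conjecture holds in this way for ALL the `M` twists (and for the
  abelian variety `E_{D m_1} × ⋯ × E_{D m_M}`) for the exact proportion `c ^ M` of the `D`.

The formula for one `D` and the proportion for `M = 1`, `m_1 = 1`, `B = 1` are from the starting library
(`MP_9ab903_nt.ThreePartCubicTwists`); the joint law is `Q283.T3B.law`, which gives the joint law of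
the Selmer groups of the endomorphism `√-3` (`MP_78d38b_nt.JointLawCubicTwists`).

`NonsingRed v W P` says that `P` is the point at infinity or that one of the partial derivatives of the
equation at `P` is not in the maximal ideal. The group `Sha` of the library is the group of the
continuous cocycles of the absolute Galois group of `K` with values in the points over an algebraic
closure of `K` that are coboundaries at all the places, modulo the coboundaries.
-/

set_option autoImplicit false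

namespace Pool.Agent.Results.MP_e996df_nt.IndependentThreeParts

open NumberField IsDedekindDomain WeierstrassCurve Filter
open Pool.Agent.TH841.NF.D (Sha)
open Pool.Agent.Y696 (NonsingRed)
open scoped Classical

/-- The curve `E_D : y² + D y = x³`. -/
def curve {K : Type} [Field K] (D : K) : WeierstrassCurve K := ⟨0, 0, D, 0, 0⟩

variable {K : Type} [Field K] [NumberField K]

/-- `D` is squarefree and `1` modulo `3`, and its norm is not `1` modulo `9`. -/
def InClass (D : 𝓞 K) : Prop :=
  (3 : 𝓞 K) ∣ D - 1 ∧ Squarefree D ∧ ¬ (9 : ℤ) ∣ Algebra.norm ℤ D - 1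

/-- No prime divides both `D` and `B`. -/
def PrimeTo (D B : 𝓞 K) : Prop := ∀ π : 𝓞 K, Prime π → π ∣ D → ¬ π ∣ B

/-- The `D` of the class that are prime to `B`, of norm at most `X`. -/
def upTo (B : 𝓞 K) (X : ℕ) : Set (𝓞 K) :=
  {D : 𝓞 K | Algebra.norm ℤ D ≤ X ∧ InClass D ∧ PrimeTo D B}

/-- The proportion of the `D` in `upTo B X` with the property `P`. -/
noncomputable def proportion (B : 𝓞 K) (P : 𝓞 K → Prop) (X : ℕ) : ℝ :=
  ({D : 𝓞 K | D ∈ upTo B X ∧ P D}.ncard : ℝ) / ((upTo B X).ncard : ℝ)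

/-- The `m_k` are different divisors of `B`, squarefree and `1` modulo `3`, and their norms are `1`
modulo `9`. -/
structure Masks {M : ℕ} (B : 𝓞 K) (m : Fin M → 𝓞 K) : Prop where
  inj : Function.Injective m
  three : ∀ k, (3 : 𝓞 K) ∣ m k - 1
  nine : ∀ k, (9 : ℤ) ∣ Algebra.norm ℤ (m k) - 1
  sqf : ∀ k, Squarefree (m k)
  dvd : ∀ k, m k ∣ B

/-- The equation `W` is minimal at every finite place `v`, the number `c v` is the index of the
group of the points of nonsingular reduction in `W(K_v)` (the Tamagawa number), and `c v = 1` for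
all but finitely many `v`. -/
def IsTamagawa (W : WeierstrassCurve K) (c : HeightOneSpectrum (𝓞 K) → ℕ) : Prop :=
  (∀ v : HeightOneSpectrum (𝓞 K),
    IsMinimal (v.adicCompletionIntegers K) (W.baseChange (v.adicCompletion K)) ∧
    ∃ H : AddSubgroup (W.baseChange (v.adicCompletion K)).toAffine.Point,
      (∀ P, P ∈ H ↔ NonsingRed Valued.v (W.baseChange (v.adicCompletion K)) P) ∧
      H.index = c v) ∧
  {v | c v ≠ 1}.Finite

/-- `E_D(K)` is finite and the `3`-primary part of `Ш(E_D / K)` is trivial. -/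
def FiniteAndTrivial (D : 𝓞 K) : Prop :=
  Finite (curve (D : K)).toAffine.Point ∧ ∀ (n : ℕ) (x : Sha (curve (D : K))), 3 ^ n • x = 0 → x = 0

/-- The order of the torsion subgroup of `E_D(K)`. -/
noncomputable def torsionOrder (D : 𝓞 K) : ℕ :=
  Nat.card (AddCommGroup.torsion (curve (D : K)).toAffine.Point)

/-- The statement on the `3`-part for `E_D` over `K`; it says in particular that `E_D(K)` is finite
with `Ш(E_D / K)[3^∞] = 0` if and only if `good` holds. The torsion subgroup of `E_D(K)` is finite, of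
order divisible by `3` and not by `9`; `Lf` is an entire function equal to `L(E_D / K, s)` for
`Re s > 3 / 2`, and `Lf 1 ≠ 0` if `good` holds; for every embedding `σ` of `K` and every pair of periods
`ω₁, ω₂` of a lattice `Λ` with `g₂ = 0`, `g₃ = - σ(D)²` (the period lattice of `E_D`;
`A = |Im (conj ω₁ ω₂)|` is the area of a period parallelogram, and `2 A` is the factor of `Ω(E_D)` at
the complex place; such a `Λ` exists) `Lf 1 = ρ · 2 A · ∏ c_v / (√|Δ(K)| |E_D(K)_tors|²)`, where `ρ` is
integral at every valuation `v` of `ℂ` above `3`, and a unit there if and only if `good` holds. -/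
def ThreePart (D : 𝓞 K) (good : Prop) : Prop :=
  (FiniteAndTrivial D ↔ good) ∧
  Finite (AddCommGroup.torsion (curve (D : K)).toAffine.Point) ∧
  padicValNat 3 (torsionOrder D) = 1 ∧
  ∃ (Lf : ℂ → ℂ) (c : HeightOneSpectrum (𝓞 K) → ℕ),
    Differentiable ℂ Lf ∧
    (∀ s : ℂ, 3 / 2 < s.re →
      LSeriesSummable ((fun n : ℤ => (n : ℂ)) ∘ (curve (D : K)).LFunction) s ∧
        Lf s = (curve (D : K)).LSeries s) ∧
    (good → Lf 1 ≠ 0) ∧
    IsTamagawa (curve (D : K)) c ∧
    ∀ σ : K →+* ℂ, (∃ Λ : PeriodPair, Λ.g₂ = 0 ∧ Λ.g₃ = -(σ D) ^ 2) ∧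
      ∀ Λ : PeriodPair, Λ.g₂ = 0 → Λ.g₃ = -(σ D) ^ 2 → ∃ ρ : ℂ,
        Lf 1 = ρ * (((2 * |((starRingEnd ℂ) Λ.ω₁ * Λ.ω₂).im| : ℝ) : ℂ) * ((∏ᶠ w, c w : ℕ) : ℂ) /
          (((Real.sqrt |(discr K : ℝ)| : ℝ) : ℂ) * (torsionOrder D : ℂ) ^ 2)) ∧
        ∀ (Γ : Type) [LinearOrderedCommGroupWithZero Γ] (v : Valuation ℂ Γ), v 3 < 1 →
          v ρ ≤ 1 ∧ (v ρ = 1 ↔ good)

theorem result (K : Type) [Field K] [NumberField K] [IsCyclotomicExtension {3} ℚ K]
    (B : 𝓞 K) (hB : B ≠ 0) (M : ℕ) (m : Fin M → 𝓞 K) (hm : Masks B m) :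
    (∃ c : ℝ, 0 < c ∧ ∃ X₀ : ℕ, ∀ X : ℕ, X₀ ≤ X → c * X ≤ ((upTo B X).ncard : ℝ)) ∧
    (∀ D : 𝓞 K, InClass D → PrimeTo D B → ∃ A : Finset (Fin M), ∀ k,
      InClass (D * m k) ∧ ThreePart (D * m k) (k ∈ A)) ∧
    (∀ A : Finset (Fin M), Tendsto (proportion B fun D => ∀ k, ThreePart (D * m k) (k ∈ A)) atTop
      (nhds ((∏' i : ℕ, (1 - (1 / 3 : ℝ) ^ (2 * i + 1))) ^ A.card *
        (1 - ∏' i : ℕ, (1 - (1 / 3 : ℝ) ^ (2 * i + 1))) ^ (M - A.card)))) ∧
    (0.639 : ℝ) < ∏' i : ℕ, (1 - (1 / 3 : ℝ) ^ (2 * i + 1)) ∧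
    ∏' i : ℕ, (1 - (1 / 3 : ℝ) ^ (2 * i + 1)) < 0.6391 := by
  have hm' : Q283.T3B.Msq B m := ⟨hm.inj, hm.three, hm.nine, hm.sqf, hm.dvd⟩
  obtain ⟨-, h1, -, h4⟩ := Pool.Agent.XL6.finalTP K
  have key : ∀ (A : Finset (Fin M)) (D : 𝓞 K), InClass D → PrimeTo D B →
      ((∀ k, (FiniteAndTrivial (D * m k) ↔ k ∈ A)) ↔ ∀ k, ThreePart (D * m k) (k ∈ A)) := by
    intro A D hD hN
    refine forall_congr' fun k => ⟨fun h => ?_, fun h => h.1⟩
    obtain ⟨a1, a2, Lf, c, a3, a4, a5, a6, a7⟩ := (h1 _ (hm'.cls hB hD hN k)).1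
    refine ⟨h, a1, a2, Lf, c, a3, a4, fun hk => a5 (h.2 hk), a6, fun σ => ⟨(a7 σ).1,
      fun Λ b1 b2 => ?_⟩⟩
    obtain ⟨ρ, b3, b4⟩ := (a7 σ).2 Λ b1 b2
    refine ⟨ρ, b3, fun Γ _ v hv => ⟨(b4 Γ v hv).1, ?_⟩⟩
    rw [(b4 Γ v hv).2]
    exact h
  refine ⟨Q283.T3B.low_K K B hB, fun D hD hN => ?_, fun A => ?_, h4⟩
  · refine ⟨Finset.univ.filter fun k => FiniteAndTrivial (D * m k), fun k =>
      ⟨hm'.cls hB hD hN k, (key _ D hD hN).1 (fun l => ?_) k⟩⟩
    rw [Finset.mem_filter]
    exact ⟨fun h => ⟨Finset.mem_univ _, h⟩, fun h => h.2⟩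
  · refine (Q283.T3B.law_A K m hm'.msk B hB A).congr fun X => ?_
    unfold proportion
    congr 3
    ext D
    constructor
    · rintro ⟨a1, a2, a3, a4⟩
      exact ⟨⟨a1, a2, a3⟩, (key A D a2 a3).1 a4⟩
    · rintro ⟨⟨a1, a2, a3⟩, a4⟩
      exact ⟨a1, a2, a3, (key A D a2 a3).2 a4⟩

end Pool.Agent.Results.MP_e996df_nt.IndependentThreeParts
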