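import Pool.Agent.Q283.LP.X7
import Pool.Agent.Results.MP_f50388_nt.ExactLawAbelianFields

/-!
# The 2-part of the conjecture over abelian fields, for all the linear patterns of divisors of almost every integer

`K_1, …, K_s` are any fields, `K_i` of degree `2 ^ n_i ≥ 2` inside `ℚ(ζ_{r_i})`, where `r_i` is a prime number
`≡ 1 mod 4` which is inert in `ℚ(√-7)`, and `E_m` is the quadratic twist by `m` of
`X_0(49) : y² + x y = x³ - x² - 2 x - 1`. The class consists of the squarefree positive integers `m` whose
prime factors `p` are `1` modulo `4`, different from the `r_i`, with Frobenius element in every `K_i` of order one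
if `p` splits in `ℚ(√-7)`, and of order at most two otherwise (a positive density of the primes). For the other
products of primes `1` modulo `4`, different from the `r_i`, the group `E_m(K_i)` is infinite or `Ш(E_m/K_i)[2] ≠ 0`
for some `i` (`ExactLawAbelianFields`).

For a positive integer `D` let `divs D` be the set of the members of the class which divide `D` (modulo squares a group;
there are `2 ^ w` of them, `w` the number of the allowed prime factors of `D`). Forms are
`F_j(d) = N_j d_1 ^ e_j1 ⋯ d_n ^ e_jn`, `d = (d_1, …, d_n)` in `(divs D) ^ n`, with `N_j` ANY members of the class (nothing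
is assumed about the curves `E_(N_j)`) and `e_j ≠ 0` any vectors over `𝔽₂`, the pairs `(N_j, e_j)` different; the
values are taken modulo squares.

THEOREM. There is ONE set `S` of positive integers of NATURAL DENSITY `1`, of relative density `1` also in the class, such
that for every finite family of forms and every `ε > 0`, for all large `D` in `S`, with
`κ = ∏ (1 - 2 ^ (-2 i - 1)) = 0.4194…` and `α_b = κ / ((2 - 1) (4 - 1) ⋯ (2 ^ b - 1))`:

(1) ALL PATTERNS, ALL FIELDS. For EVERY set `Q` of indices, for a share of the `d` which is within `ε` of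
    `κ ^ |Q| (1 - κ) ^ (M - |Q|)`: for all `j ∈ Q` and ALL the fields `K_i` the group `E_n(K_i)`, `n = F_j(d)`, is finite,
    `Ш(E_n/K_i)[2^∞] = 0`, `L(E_n/K_i, s)` is entire, `L(E_n/K_i, 1) ≠ 0`, and the 2-part of the formula of Birch and
    Swinnerton-Dyer holds for `E_n` over `K_i`; and for all `j ∉ Q` and ALL the fields `K_i` the group `E_n(K_i)` is
    infinite or `Ш(E_n/K_i)[2] ≠ 0`.
(2) The first alternative holds for all `j` for a share `≥ κ ^ M - ε`, and for one of them at least for a share
    `≥ 1 - (1 - κ) ^ M - ε`.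
(3) LAW OF LARGE NUMBERS. The share of the `d` for which the frequency of the `j` with the first alternative differs
    from `κ` by `η` or more is at most `2 exp (- η² M / 4) + ε`.
(4) LARGE Ш, JOINTLY. For every `t` the share of the `d` such that for ALL `j` and all `i` the group `E_n(K_i)` is infinite
    or `Ш(E_n/K_i)` has at least `2 ^ (t + 1)` elements killed by two is at least `(1 - α_0 - ⋯ - α_t) ^ M - ε`.
(5) UNIFORMITY OF ALL ORDERS. For all `k`, all `N` in the class and every polynomial phase `φ` of degree `≤ k` on `divs D`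
    the function `d ↦ 1_good(N d) - κ` (good: the first alternative over all the fields) has correlation at most `ε` with `φ`.
-/

set_option autoImplicit false

open NumberField IsDedekindDomain WeierstrassCurve MeasureTheory
open Finset Filter

namespace Pool.Agent.Results.MP_e996df_nt.PatternsOverAbelianFields

open Pool.Agent.Results.MP_f50388_nt.ExactLawAbelianFields
open scoped Classical

/-- over all the fields `K_i`: `E_m(K_i)` is finite, `Ш(E_m/K_i)[2] = 0`, and the 2-part of the conjecture of Birch and
Swinnerton-Dyer holds -/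
def AllFormula (F : Fields) (m : ℕ) : Prop := ∀ i, Good (F.K i) m ∧
  TwoPartFormula (F.K i) m (1 + ((inertPart m).card + 2 * (splitPart m).card) * 2 ^ F.n i)

/-- over none of the fields `K_i` the group `E_m(K_i)` is finite with `Ш(E_m/K_i)[2] = 0` -/
def NeverGood (F : Fields) (m : ℕ) : Prop := ∀ i, ¬ Good (F.K i) m

/-- over all the fields `K_i`: `E_m(K_i)` is infinite or `Ш(E_m/K_i)` has at least `2 ^ (t + 1)` elements
killed by two -/
def AllLarge (F : Fields) (t m : ℕ) : Prop :=
  ∀ i, FinitePoints (F.K i) m → 2 ^ (t + 1) ≤ shaTwo (F.K i) m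

/-- the squarefree part of `n`: the squarefree `s` such that `n / s` is a square -/
def squarefreePart (n : ℕ) : ℕ := ∏ p ∈ n.primeFactors.filter (fun p => n.factorization p % 2 = 1), p

/-- the members of the class which divide `D` -/
noncomputable def divs (F : Fields) (D : ℕ) : Finset ℕ := D.divisors.filter (Class F)

/-- the form `N d_1 ^ e_1 ⋯ d_n ^ e_n` with exponents `0, 1` -/
def form {n : ℕ} (N : ℕ) (e : Fin n → ZMod 2) (d : Fin n → ℕ) : ℕ := N * ∏ i, d i ^ (e i).val

/-- the vector of the values of the forms: the squarefree parts of the `N_j d_1 ^ e_j1 ⋯ d_n ^ e_jn` -/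
def values {M n : ℕ} (N : Fin M → ℕ) (e : Fin M → Fin n → ZMod 2) (d : Fin n → ℕ) : Fin M → ℕ :=
  fun j => squarefreePart (form (N j) (e j) d)

/-- the share of the `n`-tuples of elements of `divs D` with the property `P` -/
noncomputable def share (F : Fields) {n : ℕ} (D : ℕ) (P : (Fin n → ℕ) → Prop) : ℝ :=
  (((Fintype.piFinset fun _ : Fin n => divs F D).filter P).card : ℝ) /
    (Fintype.piFinset fun _ : Fin n => divs F D).card

/-- the frequency of the `j` such that the first alternative holds for `v j` over all the fields -/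
noncomputable def frequency (F : Fields) {M : ℕ} (v : Fin M → ℕ) : ℝ :=
  ((Finset.univ.filter fun j => AllFormula F (v j)).card : ℝ) / M

/-- the polynomial phases of degree `≤ k` on the divisors of `D`: real functions whose derivatives of order `k + 1` with
respect to the multiplication of the divisors modulo squares are equal to `1` -/
def Phase (F : Fields) (k D : ℕ) (φ : ℕ → ℝ) : Prop :=
  ∀ x ∈ divs F D, ∀ y : Fin (k + 1) → ℕ, (∀ i, y i ∈ divs F D) →
    ∏ ω : Finset (Fin (k + 1)), φ (squarefreePart (x * ∏ i ∈ ω, y i)) = 1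

/-- the number of the `D ≤ X` with the property `P` -/
noncomputable def number (P : ℕ → Prop) (X : ℕ) : ℕ := ((Finset.Icc 1 X).filter P).card

/-- the number of the allowed prime factors of `D` -/
noncomputable def omega (F : Fields) (D : ℕ) : ℕ := (D.primeFactors.filter (Allowed F)).card

section proof

open _root_.Q283.LP
open _root_.Q283.GW (C4 ρ49 DD_CF)
open _root_.Q283.GS (al)
open _root_.Q283.GF
open _root_.Q283.XF (nf)
open _root_.Q283.GM (rk)
open _root_.Q155.NL (Cl Alm)

theorem cl_eq (F : Fields) : Cl (toFL F).ρ.Φ = Class F := by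
  funext D
  refine propext ?_
  rw [class_iff]
  unfold Cl FL.CL
  exact and_congr_right fun _ => forall_congr' fun p => forall_congr' fun _ => P_iff (toFL F) p

theorem class_cl (F : Fields) (D : ℕ) : Class F D ↔ Cl (toFL F).ρ.Φ D := by
  rw [cl_eq]

theorem divs_eq (F : Fields) (D : ℕ) : divs F D = dvN (toFL F).ρ.Φ D := by
  unfold divs dvN
  exact Finset.filter_congr fun d _ => class_cl F d

theorem share_eq {F : Fields} {n D : ℕ} (P : (Fin n → ℕ) → Prop) :
    share F D P = shN (toFL F).ρ.Φ D P := by
  unfold share shN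
  rw [divs_eq]

theorem corank_rk {F : Fields} {m : ℕ} (hm : Class F m) :
    corank m = rk (toFL F).ρ.Φ nf m.primeFactors := by
  have h4 := (class_iff F m).1 hm
  rw [corank_eq h4.2.cf, ← rk_CL (toFL F) h4.2]

theorem cl_val {F : Fields} {M n D : ℕ} (hD : D ≠ 0) {N : Fin M → ℕ} (hN : ∀ j, Class F (N j))
    (e : Fin M → Fin n → ZMod 2) {d : Fin n → ℕ} (hd : ∀ i, d i ∈ dvN (toFL F).ρ.Φ D) (j : Fin M) :
    Class F (values N e d j) :=
  (class_cl F _).2 (frn_Cl ((class_cl F _).1 (hN j)) (e j) fun i => ((mem_dvN hD).1 (hd i)).1)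

theorem formula_iff {F : Fields} {m : ℕ} (hm : Class F m) : AllFormula F m ↔ corank m = 0 := by
  constructor
  · intro h
    exact (good_iff hm ⟨0, F.s_pos⟩).1.1 (h ⟨0, F.s_pos⟩).1
  · intro h i
    obtain ⟨h1, h2⟩ := good_iff hm i
    exact ⟨h1.2 h, h2 h⟩

theorem never_iff {F : Fields} {m : ℕ} (hm : Class F m) : NeverGood F m ↔ ¬ corank m = 0 := by
  constructor
  · intro h h0
    exact h ⟨0, F.s_pos⟩ ((good_iff hm ⟨0, F.s_pos⟩).1.2 h0)
  · intro h i hg
    exact h ((good_iff hm i).1.1 hg)

theorem large_of {F : Fields} {m t : ℕ} (hm : Class F m) (h : t < corank m) : AllLarge F t m := by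
  intro i hf
  refine le_trans ?_ (sha_low hm i hf)
  exact_mod_cast Nat.pow_le_pow_right (by norm_num) h

end proof

open _root_.Q283.LP in
open _root_.Q283.GF in
open _root_.Q283.XF (nf) in
open _root_.Q283.GM (rk) in
open _root_.Q283.GS (al) in
open _root_.Q155.NL (Cl Alm) in
/-- **The 2-part over abelian fields for all the linear patterns of divisors of almost every integer.** -/
theorem result (F : Fields) :
    (∀ m : ℕ, Class F m → (AllFormula F m ↔ corank m = 0) ∧ (NeverGood F m ↔ corank m ≠ 0)) ∧
    (∀ D : ℕ, D ≠ 0 → (divs F D).card = 2 ^ omega F D) ∧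
    (∀ (n D : ℕ) (N : ℕ) (e : Fin n → ZMod 2) (d : Fin n → ℕ), D ≠ 0 → Class F N →
      (∀ i, d i ∈ divs F D) → Class F (squarefreePart (form N e d)) ∧
        ∃ b : ℕ, b ≠ 0 ∧ form N e d = squarefreePart (form N e d) * b ^ 2) ∧
    (∃ S : ℕ → Prop, Tendsto (fun X : ℕ => (number S X : ℝ) / X) atTop (nhds 1) ∧
      Tendsto (fun X : ℕ => (number (fun D => Class F D ∧ S D) X : ℝ) / number (Class F) X) atTop (nhds 1) ∧
      (∀ (M n : ℕ) (N : Fin M → ℕ) (e : Fin M → Fin n → ZMod 2), (∀ j, Class F (N j)) →
        (∀ j, e j ≠ 0) → (∀ j l, j ≠ l → ¬ (e j = e l ∧ N j = N l)) → ∀ ε : ℝ, 0 < ε →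
        ∃ D₀ : ℕ, ∀ D : ℕ, D₀ ≤ D → S D →
          (∀ Q : Finset (Fin M), |share F D (fun d => (∀ j ∈ Q, AllFormula F (values N e d j)) ∧
              ∀ j, j ∉ Q → NeverGood F (values N e d j)) -
            κ ^ Q.card * (1 - κ) ^ (M - Q.card)| ≤ ε) ∧
          κ ^ M - ε ≤ share F D (fun d => ∀ j, AllFormula F (values N e d j)) ∧
          1 - (1 - κ) ^ M - ε ≤ share F D (fun d => ∃ j, AllFormula F (values N e d j)) ∧
          (0 < M → ∀ η : ℝ, 0 < η →
            share F D (fun d => η ≤ |frequency F (values N e d) - κ|) ≤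
              2 * Real.exp (-(η ^ 2 * M / 4)) + ε) ∧
          ∀ t : ℕ, (1 - ∑ b ∈ Finset.range (t + 1), α b) ^ M - ε ≤
            share F D (fun d => ∀ j, AllLarge F t (values N e d j))) ∧
      (∀ (k : ℕ) (N : ℕ), Class F N → ∀ ε : ℝ, 0 < ε → ∃ D₀ : ℕ, ∀ D : ℕ, D₀ ≤ D → S D →
        ∀ φ : ℕ → ℝ, Phase F k D φ →
          |(∑ d ∈ divs F D, ((if AllFormula F (squarefreePart (N * d)) then 1 else 0) - κ) * φ d) /
            ((divs F D).card : ℝ)| ≤ ε)) ∧
    HasSum α 1 ∧ 0.4194 < κ ∧ κ < 0.4195 := by
  have hα : α = al := funext fun b => α_eq b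
  have hκ : al 0 = κ := al0_c2
  have hκ1 : 0.4194 < κ := Pool.Agent.Y948.CQ.t_C2.2.2.2.1
  have hκ2 : κ < 0.4195 := Pool.Agent.Y948.CQ.t_C2.2.2.2.2
  have h00 : alS {0} = κ := alS_zero.trans hκ
  refine ⟨fun m hm => ⟨formula_iff hm, never_iff hm⟩, fun D hD => ?_,
    fun n D N e d hD hN hd => ?_, ?_, ?_, hκ1, hκ2⟩
  · rw [divs_eq, card_dvN _ hD]
    unfold omega
    congr 1
    exact fcc fun p _ => P_iff (toFL F) p
  · rw [divs_eq] at hd
    have hd' : ∀ i, Cl (toFL F).ρ.Φ (d i) := fun i => ((mem_dvN hD).1 (hd i)).1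
    refine ⟨(class_cl F _).2 (frn_Cl ((class_cl F _).1 hN) e hd'), nat_sqf ?_⟩
    unfold form
    exact mul_ne_zero hN.1.ne_zero (Finset.prod_ne_zero_iff.2 fun i _ => pow_ne_zero _ (hd' i).1.ne_zero)
  · obtain ⟨S, hS, hS', hL, hP⟩ := mainT (toFL F).ρ nf
    have hcc : ∀ X : ℕ, number (Class F) X = Q155.NL.cnt (Cl (toFL F).ρ.Φ) X := by
      intro X
      unfold number Q155.NL.cnt Q155.NL.cs
      exact fcc fun D _ => class_cl F D
    refine ⟨S, ?_, ?_, fun M n N e hN he hd ε hε => ?_, fun k N hN ε hε => ?_⟩
    · have h1 := Q155.NL.tendsto_of_alm (C := fun _ => True) ⟨1, le_rfl, trivial⟩ hS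
      refine h1.congr fun X => ?_
      have h2 : Q155.NL.cnt (fun _ => True) X = X := by
        have h0 : Q155.NL.cs (fun _ => True) X = Finset.Icc 1 X := by
          ext D
          rw [Q155.NL.mem_cs, Finset.mem_Icc]
          exact ⟨fun h => h.1, fun h => ⟨h, trivial⟩⟩
        unfold Q155.NL.cnt
        rw [h0, Nat.card_Icc]
        omega
      rw [h2]
      congr 2
      unfold Q155.NL.cnt Q155.NL.cs number
      congr 1
      ext D
      simp
    · have h1 := Q155.NL.tendsto_of_alm (C := Cl (toFL F).ρ.Φ) ⟨1, le_rfl, squarefree_one, by simp⟩ hS'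
      refine h1.congr fun X => ?_
      rw [hcc]
      congr 2
      unfold Q155.NL.cnt Q155.NL.cs number
      exact fcc fun D _ => and_congr_left fun _ => (class_cl F D).symm
    · have hN' : ∀ j, Cl (toFL F).ρ.Φ (N j) := fun j => (class_cl F _).1 (hN j)
      have e2 := law_tyT hL (Fin M) N e hN' he hd (show 0 < ε / 2 ^ M by positivity)
      obtain ⟨D₀, hD₀⟩ := eventually_atTop.1 (e2.and (eventually_ne_atTop 0))
      refine ⟨D₀, fun D hD hSD => ?_⟩
      obtain ⟨k2, hD0⟩ := hD₀ D hD
      replace k2 := k2 hSD
      have k3 := k2 {0}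
      rw [h00, Fintype.card_fin] at k3
      have hI := pi_pos (toFL F).ρ.Φ (n := n) hD0
      have h4 : ε / 2 ^ M ≤ ε := div_le_self hε.le (one_le_pow₀ (by norm_num))
      have hcor : ∀ d ∈ Fintype.piFinset (fun _ : Fin n => dvN (toFL F).ρ.Φ D), ∀ j : Fin M,
          corank (values N e d j) = rk (toFL F).ρ.Φ nf (sqn (frn (N j) (e j) d)).primeFactors := by
        intro d hd j
        exact corank_rk (cl_val hD0 hN e (fun i => Fintype.mem_piFinset.1 hd i) j)
      have hform : ∀ d ∈ Fintype.piFinset (fun _ : Fin n => dvN (toFL F).ρ.Φ D), ∀ j : Fin M,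
          (AllFormula F (values N e d j) ↔
            rk (toFL F).ρ.Φ nf (sqn (frn (N j) (e j) d)).primeFactors ∈ ({0} : Set ℕ)) := by
        intro d hd j
        rw [formula_iff (cl_val hD0 hN e (fun i => Fintype.mem_piFinset.1 hd i) j), hcor d hd j]
        exact Iff.rfl
      have hnev : ∀ d ∈ Fintype.piFinset (fun _ : Fin n => dvN (toFL F).ρ.Φ D), ∀ j : Fin M,
          (NeverGood F (values N e d j) ↔
            ¬ rk (toFL F).ρ.Φ nf (sqn (frn (N j) (e j) d)).primeFactors ∈ ({0} : Set ℕ)) := by
        intro d hd j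
        rw [never_iff (cl_val hD0 hN e (fun i => Fintype.mem_piFinset.1 hd i) j), hcor d hd j]
        exact Iff.rfl
      have hpat : ∀ Q : Finset (Fin M), share F D (fun d => ∀ j, (AllFormula F (values N e d j) ↔ j ∈ Q)) =
          shN (toFL F).ρ.Φ D (fun d => ∀ j : Fin M,
            (rk (toFL F).ρ.Φ nf (sqn (frn (N j) (e j) d)).primeFactors ∈ ({0} : Set ℕ) ↔ j ∈ Q)) := by
        intro Q
        rw [share_eq]
        refine le_antisymm (shN_mono fun d hd h j => ?_) (shN_mono fun d hd h j => ?_)
        · rw [← hform d hd j]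
          exact h j
        · rw [hform d hd j]
          exact h j
      have hpat2 : ∀ Q : Finset (Fin M), share F D (fun d => (∀ j ∈ Q, AllFormula F (values N e d j)) ∧
              ∀ j, j ∉ Q → NeverGood F (values N e d j)) =
          shN (toFL F).ρ.Φ D (fun d => ∀ j : Fin M,
            (rk (toFL F).ρ.Φ nf (sqn (frn (N j) (e j) d)).primeFactors ∈ ({0} : Set ℕ) ↔ j ∈ Q)) := by
        intro Q
        rw [share_eq]
        refine le_antisymm (shN_mono fun d hd h j => ?_) (shN_mono fun d hd h => ⟨fun j hj => ?_, fun j hj => ?_⟩)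
        · by_cases hj : j ∈ Q
          · exact iff_of_true ((hform d hd j).1 (h.1 j hj)) hj
          · exact iff_of_false ((hnev d hd j).1 (h.2 j hj)) hj
        · exact (hform d hd j).2 ((h j).2 hj)
        · exact (hnev d hd j).2 fun h5 => hj ((h j).1 h5)
      have hmain : ∀ Q : Finset (Fin M),
          |share F D (fun d => ∀ j, (AllFormula F (values N e d j) ↔ j ∈ Q)) -
            κ ^ Q.card * (1 - κ) ^ (M - Q.card)| ≤ ε / 2 ^ M := by
        intro Q
        rw [hpat]
        exact k3 Q
      refine ⟨fun Q => ?_, ?_, ?_, fun hM η hη => ?_, fun t => ?_⟩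
      · rw [hpat2, ← hpat]
        exact (hmain Q).trans h4
      · have h1 := (abs_le.1 (hmain Finset.univ)).1
        rw [Finset.card_univ, Fintype.card_fin, Nat.sub_self, pow_zero, mul_one] at h1
        have h3 : share F D (fun d => ∀ j, (AllFormula F (values N e d j) ↔ j ∈ (Finset.univ : Finset (Fin M)))) ≤
            share F D (fun d => ∀ j, AllFormula F (values N e d j)) := by
          rw [share_eq, share_eq]
          exact shN_mono fun d hd h j => (h j).2 (Finset.mem_univ j)
        linarith
      · have h1 := (abs_le.1 (hmain ∅)).2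
        rw [Finset.card_empty, Nat.sub_zero, pow_zero, one_mul] at h1
        have h2 : 1 ≤ share F D (fun d => ∃ j, AllFormula F (values N e d j)) +
            share F D (fun d => ∀ j : Fin M, (AllFormula F (values N e d j) ↔ j ∈ (∅ : Finset (Fin M)))) := by
          rw [share_eq, share_eq]
          refine shN_or hD0 fun d hd => ?_
          by_cases h : ∃ j, AllFormula F (values N e d j)
          · exact Or.inl h
          · exact Or.inr fun j => iff_of_false (fun h4 => h ⟨j, h4⟩) (Finset.notMem_empty j)
        linarith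
      · have h2 := lln_gen hI (Fin M) (fun j d => AllFormula F (values N e d j))
          (p := κ) (δ := ε / 2 ^ M) (by linarith) (by linarith) (fun Q => by
            have h3 := hmain Q
            rw [share_eq] at h3
            unfold shN at h3
            have h5 : cE (Fintype.piFinset fun _ : Fin n => dvN (toFL F).ρ.Φ D) (fun d => ∀ j : Fin M,
              (AllFormula F (values N e d j) ↔ j ∈ Q)) -
              κ ^ Q.card * (1 - κ) ^ (Fintype.card (Fin M) - Q.card) *
                (Fintype.piFinset fun _ : Fin n => dvN (toFL F).ρ.Φ D).card =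
              (cE (Fintype.piFinset fun _ : Fin n => dvN (toFL F).ρ.Φ D) (fun d => ∀ j : Fin M,
              (AllFormula F (values N e d j) ↔ j ∈ Q)) /
                (Fintype.piFinset fun _ : Fin n => dvN (toFL F).ρ.Φ D).card -
              κ ^ Q.card * (1 - κ) ^ (Fintype.card (Fin M) - Q.card)) *
                (Fintype.piFinset fun _ : Fin n => dvN (toFL F).ρ.Φ D).card := by
              field_simp
            rw [h5, abs_mul, abs_of_pos hI]
            refine mul_le_mul_of_nonneg_right ?_ hI.le
            rw [Fintype.card_fin]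
            exact h3) (by rw [Fintype.card_fin]; exact hM) hη
        rw [Fintype.card_fin] at h2
        have h3 : (2 : ℝ) ^ M * (ε / 2 ^ M) = ε := by field_simp
        rw [h3] at h2
        rw [share_eq]
        unfold shN
        rw [div_le_iff₀ hI]
        exact h2
      · obtain ⟨T, hT⟩ : ∃ T : Set ℕ, T = {r | r < t + 1} := ⟨_, rfl⟩
        have h1 := (abs_le.1 (k2 T ∅)).1
        rw [Finset.card_empty, Nat.sub_zero, pow_zero, one_mul, Fintype.card_fin] at h1
        have h2 : alS T = ∑ b ∈ Finset.range (t + 1), α b := by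
          have h3 := hasSum_alS T
          have h4 : HasSum (fun r : ℕ => if r ∈ T then al r else 0)
              (∑ r ∈ Finset.range (t + 1), if r ∈ T then al r else 0) :=
            hasSum_sum_of_ne_finset_zero (fun r hr => by
              rw [Finset.mem_range] at hr
              exact if_neg fun h => hr (by rw [hT] at h; exact h))
          rw [h3.unique h4, hα]
          refine Finset.sum_congr rfl fun r hr => if_pos ?_
          rw [hT]
          exact Finset.mem_range.1 hr
        rw [← h2]
        have h3 : shN (toFL F).ρ.Φ D (fun d => ∀ j : Fin M,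
            (rk (toFL F).ρ.Φ nf (sqn (frn (N j) (e j) d)).primeFactors ∈ T ↔ j ∈ (∅ : Finset (Fin M)))) ≤
            share F D (fun d => ∀ j, AllLarge F t (values N e d j)) := by
          rw [share_eq]
          refine shN_mono fun d hd h j => ?_
          have h5 : ¬ rk (toFL F).ρ.Φ nf (sqn (frn (N j) (e j) d)).primeFactors ∈ T := fun h6 =>
            Finset.notMem_empty j ((h j).1 h6)
          rw [hT] at h5
          have h6 : ¬ rk (toFL F).ρ.Φ nf (sqn (frn (N j) (e j) d)).primeFactors < t + 1 := h5
          rw [← hcor d hd j] at h6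
          exact large_of (cl_val hD0 hN e (fun i => Fintype.mem_piFinset.1 hd i) j) (by omega)
        linarith
    · obtain ⟨D₀, hD₀⟩ := eventually_atTop.1 ((hP k N ((class_cl F _).1 hN) ε hε).and (eventually_ne_atTop 0))
      refine ⟨D₀, fun D hD hSD φ hφ => ?_⟩
      obtain ⟨k1, hD0⟩ := hD₀ D hD
      have h1 := k1 hSD {0} φ (by
        intro x hx y hy
        rw [← divs_eq] at hx
        exact hφ x hx y fun i => by rw [divs_eq]; exact hy i)
      rw [h00] at h1
      rw [divs_eq]
      refine le_trans (le_of_eq ?_) h1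
      congr 2
      refine Finset.sum_congr rfl fun d hd => ?_
      have hC : Class F (sqn (N * d)) := by
        have h2 := cl_val (F := F) (M := 1) (n := 1) hD0 (N := fun _ => N) (fun _ => hN) (fun _ _ => 1)
          (d := fun _ => d) (fun _ => hd) 0
        have h3 : values (fun _ : Fin 1 => N) (fun _ _ => (1 : ZMod 2)) (fun _ : Fin 1 => d) 0 =
            sqn (N * d) := by
          unfold values form
          have h4 : (1 : ZMod 2).val = 1 := rfl
          rw [Fin.prod_const, h4, pow_one, pow_one]
          rfl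
        rw [h3] at h2
        exact h2
      have h2 := formula_iff hC
      have h3 := corank_rk hC
      by_cases h4 : rk (toFL F).ρ.Φ nf (sqn (N * d)).primeFactors = 0
      · have h5 : AllFormula F (squarefreePart (N * d)) := h2.2 (h3.trans h4)
        rw [if_pos h5]
        have h6 : rk (toFL F).ρ.Φ nf (sqn (N * d)).primeFactors ∈ ({0} : Set ℕ) := h4
        rw [if_pos h6]
      · have h5 : ¬ AllFormula F (squarefreePart (N * d)) := fun h => h4 (h3.symm.trans (h2.1 h))
        rw [if_neg h5]
        have h6 : ¬ rk (toFL F).ρ.Φ nf (sqn (N * d)).primeFactors ∈ ({0} : Set ℕ) := h4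
        rw [if_neg h6]
  · rw [hα]
    exact Q283.GS.hasSum_al

end Pool.Agent.Results.MP_e996df_nt.PatternsOverAbelianFields
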